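import Mathlib

namespace Pool.Agent.Results.MP_585e0c_gt.Q2

open Finset Asymptotics Filter Topology RealInnerProductSpace

section
variable {E : Type} [NormedAddCommGroup E] [InnerProductSpace ℝ E]

/-- Unit vectors with pairwise inner products at most `1/2`. -/
def Code {J : Type} (x : J → E) : Prop :=
  (∀ i, ‖x i‖ = 1) ∧ ∀ i j, i ≠ j → inner ℝ (x i) (x j) ≤ 1 / 2

/-- `y` is the image of `x` under an orthogonal map. -/
def Congr {J : Type} (x y : J → E) : Prop := ∃ A : E ≃ₗᵢ[ℝ] E, ∀ i, y i = A (x i)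

/-- `C` is a jammed kissing configuration. -/
def Jammed (C : Finset E) : Prop :=
  Code (fun c : C => c.1) ∧ ∀ f : unitInterval → C → E, Continuous f → (∀ c, f 0 c = c.1) →
    (∀ t, Code (f t)) → ∀ t, Congr (fun c : C => c.1) (f t)
end

variable {F : Type} [Fintype F] [DecidableEq F] [AddCommGroup F]

def Lat (v : F → ℤ) : Prop := Even (∑ i, v i) ∧ ∑ i, v i • i = 0
def S (v : F → ℤ) : Prop := Lat v ∧ v ⬝ᵥ v = 4

lemma Lat.sub {v w : F → ℤ} (a : Lat v) (b : Lat w) : Lat (v - w) :=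
  ⟨by simpa [sum_sub_distrib] using a.1.sub b.1, by simp [sub_smul, sum_sub_distrib, a.2, b.2]⟩
lemma Lat.neg {v : F → ℤ} (a : Lat v) : Lat (-v) := by
  simpa using Lat.sub (v := 0) ⟨by simp, by simp⟩ a
lemma Lat.add {v w : F → ℤ} (a : Lat v) (b : Lat w) : Lat (v + w) := by simpa using a.sub b.neg
lemma S.neg {v : F → ℤ} (a : S v) : S (-v) := ⟨a.1.neg, by simpa using a.2⟩

lemma le_dot (v : F → ℤ) (i : F) : v i * v i ≤ v ⬝ᵥ v :=
  single_le_sum (f := fun i => v i * v i) (fun _ _ => mul_self_nonneg _) (mem_univ i)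

lemma card_dot {v : F → ℤ} (h : ∀ i, v i * v i < 4) :
    (∀ i, v i ≠ 0 → v i * v i = 1) ∧ (#{i | v i ≠ 0} : ℤ) = v ⬝ᵥ v := by
  have (i) (g : v i ≠ 0) : v i * v i = 1 := by
    have := h i
    have a : v i < 2 := by nlinarith
    have b : -2 < v i := by nlinarith
    interval_cases v i <;> simp_all
  refine ⟨this, ?_⟩
  rw [card_filter]; push_cast
  exact sum_congr rfl fun i _ => by split_ifs with g; exacts [(this i g).symm, by simp [not_not.1 g]]

variable (h2 : ∀ a : F, a + a = 0)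
include h2

lemma sm {s : ℤ} (h : s * s = 1) (a : F) : s • a = a := by
  rcases Int.eq_one_or_neg_one_of_mul_eq_one h with rfl | rfl
  exacts [one_smul _ _, by rw [neg_one_smul, neg_eq_iff_add_eq_zero, h2]]

lemma kiss {v w : F → ℤ} (a : S v) (b : S w) (h : v ≠ w) : v ⬝ᵥ w ≤ 2 := by
  by_contra g
  have l := a.1.sub b.1
  have n : (v - w) ⬝ᵥ (v - w) < 4 := by
    rw [sub_dotProduct, dotProduct_sub, dotProduct_sub, a.2, b.2, dotProduct_comm w]; omega
  generalize hu : v - w = u at l n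
  obtain ⟨p, q⟩ := card_dot fun i => (le_dot u i).trans_lt n
  have e : Even (u ⬝ᵥ u) := by
    have : Even (∑ i, u i * (u i - 1)) := even_sum _ fun i _ => Int.even_mul_pred_self _
    simpa [mul_sub, sum_sub_distrib, dotProduct] using this.add l.1
  have z : #{i | u i ≠ 0} ≠ 0 := fun z => h (sub_eq_zero.1 (hu.trans (funext fun i => by
    simpa using filter_eq_empty_iff.1 (card_eq_zero.1 z) (mem_univ i))))
  obtain ⟨i, j, ij, s⟩ := card_eq_two.1 (show #{i | u i ≠ 0} = 2 by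
    obtain ⟨k, hk⟩ := e; omega)
  have m (k) (hk : k ∈ ({i, j} : Finset F)) : u k • k = k :=
    sm h2 (p k (mem_filter.1 (s ▸ hk : k ∈ filter _ _)).2) k
  have := l.2
  rw [← sum_filter_of_ne (p := (u · ≠ 0)) fun k _ g z => g (by simp [z]), s, sum_pair ij,
    m i (by simp), m j (by simp)] at this
  exact ij (add_right_cancel (this.trans (h2 j).symm))

omit h2 in
def Q (a b c : F) (α β γ δ : ℤ) : F → ℤ :=
  Pi.single a α + Pi.single b β + Pi.single c γ + Pi.single (a + b + c) δ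

omit h2 in
lemma dQ (w : F → ℤ) (a b c α β γ δ) :
    w ⬝ᵥ Q a b c α β γ δ = w a * α + w b * β + w c * γ + w (a + b + c) * δ := by simp [Q]

lemma ne4 {a b c : F} (h : b ≠ c) : a + b + c ≠ a := fun g =>
  h (add_right_cancel (add_left_cancel (a := a) (by rw [← add_assoc, g, h2, add_zero])))

lemma SQ {a b c : F} {α β γ δ : ℤ} (ab : a ≠ b) (ac : a ≠ c) (bc : b ≠ c) (p : α * α = 1)
    (q : β * β = 1) (r : γ * γ = 1) (s : δ * δ = 1) : S (Q a b c α β γ δ) := by
  have o {x : ℤ} (h : x * x = 1) : Odd x := by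
    rcases Int.eq_one_or_neg_one_of_mul_eq_one h with rfl | rfl <;> decide
  have e (a : F) (x : ℤ) : ∑ i, (Pi.single a x : F → ℤ) i • i = x • a := by
    rw [sum_eq_single a] <;> simp +contextual
  have n1 := ne4 h2 (a := a) bc
  have n2 : a + b + c ≠ b := add_comm a b ▸ ne4 h2 ac
  have n3 : a + b + c ≠ c := by rw [add_comm, ← add_assoc]; exact ne4 h2 ab
  refine ⟨⟨?_, ?_⟩, ?_⟩
  · simp only [Q, Pi.add_apply, sum_add_distrib, sum_pi_single', mem_univ, if_true]
    rw [add_assoc]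
    exact ((o p).add_odd (o q)).add ((o r).add_odd (o s))
  · simp only [Q, Pi.add_apply, add_smul, sum_add_distrib, e, sm h2, p, q, r, s, h2]
  · rw [dQ]; simp [Q, *, ab.symm, ac.symm, bc.symm, n1.symm, n2.symm, n3.symm]

lemma S2 (j : F) : S (Pi.single j 2 : F → ℤ) :=
  ⟨⟨by simp, by rw [sum_eq_single j] <;> simp +contextual [two_smul, h2]⟩, by simp⟩

lemma oct (h3 : 2 < Fintype.card F) {v : F → ℤ} (hv : S v) {j : F} (hj : v j = 0) :
    ∃ r s, S r ∧ S s ∧ v ⬝ᵥ r = 2 ∧ v ⬝ᵥ s = 2 ∧ r j = 1 ∧ s j = 1 ∧ r ⬝ᵥ s = 2 := by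
  have key {a b : F} {α β : ℤ} (ja : j ≠ a) (jb : j ≠ b) (ab : a ≠ b) (p : α * α = 1) (q : β * β = 1)
      (h : v a * α + v b * β = 2) : v (j + a + b) = 0 ∧ ∀ δ, Q j a b 1 α β δ j = 1 := by
    have t (δ) : Q j a b 1 α β δ j = 1 := by simp [Q, ja, jb, (ne4 h2 ab).symm]
    have (δ) (d : δ * δ = 1) := kiss h2 hv (SQ h2 ja jb ab (one_mul 1) p q d) fun g => by
      simpa [← g, hj] using t δ
    have x := this 1 rfl
    have y := this (-1) rfl
    rw [dQ, hj] at x y
    exact ⟨by omega, t⟩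
  by_cases h : ∀ i, v i * v i < 4
  · obtain ⟨p, q⟩ := card_dot h
    obtain ⟨a, ha, b, hb, c, hc, ab, ac, bc⟩ := two_lt_card.1 (show 2 < #{i | v i ≠ 0} by
      have := hv.2; omega)
    simp only [mem_filter, mem_univ, true_and] at ha hb hc
    have n {x} (h : v x ≠ 0) : j ≠ x := fun g => h (g ▸ hj)
    obtain ⟨k1, k2⟩ := key (n ha) (n hb) ab (p a ha) (p b hb) (by rw [p a ha, p b hb]; rfl)
    obtain ⟨k3, k4⟩ := key (n ha) (n hc) ac (p a ha) (p c hc) (by rw [p a ha, p c hc]; rfl)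
    refine ⟨_, _, SQ h2 (n ha) (n hb) ab (one_mul 1) (p a ha) (p b hb) (one_mul 1),
      SQ h2 (n ha) (n hc) ac (one_mul 1) (p a ha) (p c hc) (one_mul 1),
      by simp [dQ, *], by simp [dQ, *], k2 1, k4 1, ?_⟩
    have m {x y} (h : v x ≠ 0) (g : v y = 0) : x ≠ y := fun e => h (e ▸ g)
    rw [dQ, k2]
    simp [Q, (n ha).symm, (n hc).symm, ab, ac.symm, bc.symm, m ha k1, m hc k1, (m ha k3).symm,
      (m hb k3).symm, ne4 h2 ac, p a ha]
  · obtain ⟨i, hi⟩ := not_forall.1 h
    have z (k) (g : k ≠ i) : v k = 0 := by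
      have := add_le_sum (f := fun i => v i * v i) (fun _ _ => mul_self_nonneg _) (mem_univ k)
        (mem_univ i) g
      have t : ∑ i, v i * v i = 4 := hv.2
      nlinarith
    have ji : j ≠ i := fun g => hi (by simp [← g, hj])
    obtain ⟨k, -, hk⟩ := exists_mem_notMem_of_card_lt_card (s := {j, i}) (t := univ)
      (card_le_two.trans_lt h3)
    simp only [mem_insert, mem_singleton, not_or] at hk
    obtain ⟨σ, s1, s2⟩ : ∃ σ, σ * σ = 1 ∧ v i * σ = 2 := by
      have := (le_dot v i).trans hv.2.le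
      have a : v i ≤ 2 := by nlinarith
      have b : -2 ≤ v i := by nlinarith
      interval_cases v i <;> simp at hi
      exacts [⟨-1, rfl, rfl⟩, ⟨1, rfl, rfl⟩]
    have jk := Ne.symm hk.1
    have ik := Ne.symm hk.2
    obtain ⟨k1, k2⟩ := key ji jk ik s1 (one_mul 1) (by simp [s2, z k hk.2])
    refine ⟨_, _, SQ h2 ji jk ik (one_mul 1) s1 (one_mul 1) (one_mul 1),
      SQ h2 ji jk ik (one_mul 1) s1 (one_mul 1) (rfl : -1 * -1 = (1 : ℤ)),
      by simp [dQ, hj, s2, k1, z k hk.2], by simp [dQ, hj, s2, k1, z k hk.2], k2 _, k2 _, ?_⟩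
    have := (SQ h2 ji jk ik (one_mul 1) s1 (one_mul 1) (one_mul 1)).2
    have n2 : j + i + k ≠ i := add_comm j i ▸ ne4 h2 jk
    have n3 : j + i + k ≠ k := by rw [add_comm, ← add_assoc]; exact ne4 h2 ji
    have : Q j i k 1 σ 1 1 (j + i + k) = 1 := by simp [Q, n2, n3, ne4 h2 ik]
    rw [dQ] at *
    omega

lemma core (h3 : 2 < Fintype.card F) {T E : Type} [NormedAddCommGroup E] [InnerProductSpace ℝ E]
    {l : Filter T} {h : T → ℝ} (Z : (F → ℤ) → T → E) (M : T → (F → ℤ) →+ E)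
    (hR : ∀ v, S v → (fun t => Z v t - M t v) =O[l] h) (hn : ∀ v, S v → ∀ t, ⟪Z v t, Z v t⟫ = 4)
    (hc : ∀ v w, S v → S w → v ⬝ᵥ w = 2 → ∀ t, ⟪Z v t, Z w t⟫ ≤ 2) {v : F → ℤ} (hv : S v) (j : F) :
    (fun t => ⟪Z v t, Z (Pi.single j 2) t⟫ - 2 * v j) =O[l] fun t => h t ^ 2 := by
  have sq {A : T → E} (a : A =O[l] h) : (fun t => ⟪A t, A t⟫) =O[l] fun t => h t ^ 2 := by
    simpa only [real_inner_self_eq_norm_sq] using a.norm_left.pow 2
  have tri {c e d} (a : S c) (b : S e) (g : S d) (k : c + e = d) : (fun t => 12 + 2 * ⟪Z c t, Z e t⟫ -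
      2 * ⟪Z c t, Z d t⟫ - 2 * ⟪Z e t, Z d t⟫) =O[l] fun t => h t ^ 2 :=
    (sq (((hR c a).add (hR e b)).sub (hR d g))).congr_left fun t => by
      rw [show Z c t - M t c + (Z e t - M t e) - (Z d t - M t d) = Z c t + Z e t - Z d t by
        rw [← k, map_add]; abel]
      simp only [inner_sub_left, inner_sub_right, inner_add_left, inner_add_right, hn, a, b, g,
        real_inner_comm (Z c t), real_inner_comm (Z e t) (Z d t)]
      ring
  have con {c d} (a : S c) (b : S d) (k : c ⬝ᵥ d = 2) :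
      (fun t => ⟪Z c t, Z d t⟫ - 2) =O[l] fun t => h t ^ 2 := by
    have k' := (dotProduct_comm d c).trans k
    have e : S (d - c) := ⟨b.1.sub a.1, by simp [a.2, b.2, k, k']⟩
    have := (((sq (((hR c a).add (hR _ e)).add (hR _ b.neg))).sub (tri a e b (by abel))).sub
      (tri a b.neg e.neg (by abel))).sub (tri e b.neg a.neg (by abel))
    refine .trans (.of_bound 1 (.of_forall fun t => ?_)) this
    rw [show Z c t - M t c + (Z (d - c) t - M t (d - c)) + (Z (-d) t - M t (-d)) =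
      Z c t + Z (d - c) t + Z (-d) t by rw [map_sub, map_neg]; abel]
    simp only [inner_add_left, inner_add_right, hn, a, e, b.neg,
      real_inner_comm (Z c t), real_inner_comm (Z (d - c) t) (Z (-d) t), one_mul, Real.norm_eq_abs]
    have := hc _ _ a b k t
    have := hc _ _ e b (by simp [b.2, k]) t
    have := hc _ _ a e.neg (by simp [a.2, k]) t
    have := hc _ _ b.neg e.neg (by simp [b.2, k']) t
    have := hc _ _ e a.neg (by simp [a.2, k']) t
    have := hc _ _ b.neg a.neg (by simp [k']) t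
    rw [abs_of_nonpos (by linarith), abs_of_nonpos (by linarith)]
    linarith
  have quad {p q r s} (a : S p) (b : S q) (c : S r) (d : S s) (k : p + q = r + s) (x : p ⬝ᵥ r = 2)
      (y : q ⬝ᵥ r = 2) (z : p ⬝ᵥ s = 2) (w : q ⬝ᵥ s = 2) :
      (fun t => 2 * ⟪Z p t, Z q t⟫ + 2 * ⟪Z r t, Z s t⟫) =O[l] fun t => h t ^ 2 :=
    ((sq ((((hR p a).add (hR q b)).sub (hR r c)).sub (hR s d))).add (((((con a c x).add (con b c y)).add
      (con a d z)).add (con b d w)).const_mul_left 2)).congr_left fun t => by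
      rw [show Z p t - M t p + (Z q t - M t q) - (Z r t - M t r) - (Z s t - M t s) =
        Z p t + Z q t - Z r t - Z s t - (M t (p + q) - M t (r + s)) by simp only [map_add]; abel,
        k, sub_self, sub_zero]
      simp only [inner_sub_left, inner_sub_right, inner_add_left, inner_add_right, hn, a, b, c, d,
        real_inner_comm (Z p t), real_inner_comm (Z q t) (Z r t), real_inner_comm (Z q t) (Z s t),
        real_inner_comm (Z r t) (Z s t)]
      ring
  have u := S2 h2 j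
  have du (w : F → ℤ) : w ⬝ᵥ Pi.single j 2 = w j * 2 := by simp
  have ud (w : F → ℤ) : Pi.single j 2 ⬝ᵥ w = 2 * w j := by simp
  have u4 := u.2
  generalize (Pi.single j 2 : F → ℤ) = e at *
  by_cases g : v = e
  · have : v j = 2 := by have := du v; rw [← g, hv.2] at this; omega
    refine (isBigO_zero _ _).congr_left fun t => ?_
    rw [← g, hn v hv, this]; norm_num
  by_cases g' : v = -e
  · have : v j = -2 := by have := du v; rw [g', neg_dotProduct, u4, ← g'] at this; omega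
    refine ((sq ((hR v hv).add (hR e u))).const_mul_left (1 / 2)).congr_left fun t => ?_
    rw [show Z v t - M t v + (Z e t - M t e) = Z v t + Z e t by
      rw [congrArg (M t) g', map_neg]; abel]
    simp only [inner_add_left, inner_add_right, hn, hv, u, real_inner_comm (Z v t), this]
    push_cast; ring
  have a := kiss h2 hv u g
  have b := kiss h2 hv u.neg g'
  rw [dotProduct_neg] at b
  have dv := du v
  obtain k | k | k : v j = 1 ∨ v j = -1 ∨ v j = 0 := by omega
  · simpa [k] using con hv u (by omega)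
  · have ev := ud v
    have c : S (v + e) := ⟨hv.1.add u.1, by simp [hv.2, u4]; omega⟩
    refine (((tri hv u c rfl).const_mul_left (1 / 2)).add ((con hv c (by simp [hv.2]; omega)).add
      (con u c (by simp [u4]; omega)))).congr_left fun t => ?_
    rw [k]; push_cast; ring
  obtain ⟨r, s, hr, hs, p1, p2, p3, p4, p5⟩ := oct h2 h3 hv k
  have ev := ud v
  have o {r} (hr : S r) (p : v ⬝ᵥ r = 2) (q : r j = 1) : S (v + e - r) ∧ e ⬝ᵥ r = 2 ∧
      v ⬝ᵥ (v + e - r) = 2 ∧ e ⬝ᵥ (v + e - r) = 2 ∧ r ⬝ᵥ v = 2 ∧ r ⬝ᵥ e = 2 := by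
    have := du r; have := ud r; have := dotProduct_comm r v
    refine ⟨⟨(hv.1.add u.1).sub hr.1, ?_⟩, ?_, ?_, ?_, ?_, ?_⟩ <;> try simp [hv.2, hr.2, u4]
    all_goals omega
  obtain ⟨a1, a2, a3, a4, a5, a6⟩ := o hr p1 p3
  obtain ⟨b1, b2, b3, b4, b5, b6⟩ := o hs p2 p4
  have p6 := (dotProduct_comm s r).trans p5
  refine ((((quad hv u hr a1 (by abel) p1 a2 a3 a4).add (quad hv u hs b1 (by abel) p2 b2 b3 b4)).sub
    (quad hr a1 hs b1 (by abel) p5 ?_ ?_ ?_)).const_mul_left (1 / 4)).congr_left fun t => ?_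
  · simp [p2, b2, p5]
  · simp [a5, a6, p5]
  · simp [hv.2, u4]; omega
  · rw [k]; push_cast; ring

omit h2 in
noncomputable def x (v : F → ℤ) : EuclideanSpace ℝ F := WithLp.toLp 2 fun i => (v i : ℝ) / 2

omit h2 [DecidableEq F] [AddCommGroup F] in
lemma xx (v w : F → ℤ) : ⟪x v, x w⟫ = ((v ⬝ᵥ w : ℤ) : ℝ) / 4 := by
  simp only [x, PiLp.inner_apply, dotProduct, Int.cast_sum, sum_div]
  exact sum_congr rfl fun i _ => by simp; ring

omit h2 [DecidableEq F] [AddCommGroup F] [Fintype F] in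
lemma xi : Function.Injective (x (F := F)) := fun v w h => funext fun i => by
  simpa [x] using congrArg (· i) h

omit h2 in
lemma fin : {v : F → ℤ | S v}.Finite :=
  (Set.Finite.pi' fun _ => Set.finite_Icc (-2) 2).subset fun v h i => by
    have := (le_dot v i).trans h.2.le
    constructor <;> nlinarith

lemma jam (h3 : 2 < Fintype.card F) : Jammed ((fin (F := F)).image x).toFinset := by
  have mem {c} : c ∈ ((fin (F := F)).image x).toFinset ↔ ∃ v, S v ∧ x v = c := Set.Finite.mem_toFinset _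
  refine ⟨⟨fun c => ?_, fun c d h => ?_⟩, fun f fc f0 hf => ?_⟩
  · obtain ⟨v, a, b⟩ := mem.1 c.2
    simp only [← b]
    rw [norm_eq_sqrt_real_inner, xx, a.2]; norm_num
  · obtain ⟨v, a, b⟩ := mem.1 c.2
    obtain ⟨w, p, q⟩ := mem.1 d.2
    have : ((v ⬝ᵥ w : ℤ) : ℝ) ≤ 2 := mod_cast kiss h2 a p fun g => h (Subtype.ext (b ▸ q ▸ congrArg x g))
    simp only [← b, ← q, xx]; linarith
  classical
  obtain ⟨Z, zc, z0, hZ⟩ : ∃ Z : (F → ℤ) → unitInterval → EuclideanSpace ℝ F, (∀ v, Continuous (Z v)) ∧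
      (∀ v, S v → Z v 0 = (2 : ℝ) • x v) ∧
      ∀ v (h : S v) t, Z v t = (2 : ℝ) • f t ⟨x v, mem.2 ⟨v, h, rfl⟩⟩ :=
    ⟨fun v t => if h : S v then (2 : ℝ) • f t ⟨x v, mem.2 ⟨v, h, rfl⟩⟩ else 0,
      fun v => by by_cases h : S v <;> simp only [h, dif_pos, dif_neg, not_false_iff] <;> fun_prop,
      fun v h => by simp [h, f0], fun v h t => dif_pos h⟩
  have hn (v) (a : S v) (t) : ⟪Z v t, Z v t⟫ = 4 := by
    rw [hZ v a, real_inner_self_eq_norm_sq, norm_smul, (hf t).1]; norm_num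
  have hc (v w) (a : S v) (b : S w) (k : v ⬝ᵥ w = 2) (t) : ⟪Z v t, Z w t⟫ ≤ 2 := by
    have := (hf t).2 ⟨x v, mem.2 ⟨v, a, rfl⟩⟩ ⟨x w, mem.2 ⟨w, b, rfl⟩⟩ fun g => by
      have := a.2; rw [← xi (congrArg Subtype.val g)] at k; omega
    rw [hZ v a, hZ w b, real_inner_smul_left, real_inner_smul_right]; linarith
  have := (fin (F := F)).fintype
  obtain ⟨G, hG⟩ : ∃ G : unitInterval → {v : F → ℤ | S v} × F → ℝ,
    G = fun t p => ⟪Z p.1 t, Z (Pi.single p.2 2) t⟫ - 2 * p.1.1 p.2 := ⟨_, rfl⟩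
  have gc : Continuous G := by rw [hG]; fun_prop
  have ob (t) (h : G t = 0) : ∃ b : OrthonormalBasis F ℝ (EuclideanSpace ℝ F),
      ∀ i, Z (Pi.single i 2) t = (2 : ℝ) • b i := by
    have o : Orthonormal ℝ fun i => (1 / 2 : ℝ) • Z (Pi.single i 2) t := orthonormal_iff_ite.2 fun i j => by
      have := congrFun h (⟨_, S2 h2 i⟩, j)
      simp only [hG, Pi.zero_apply, sub_eq_zero] at this
      rw [real_inner_smul_left, real_inner_smul_right, this, Pi.single_apply]
      by_cases g : i = j <;> simp [g, eq_comm]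
    have : Nonempty F := Fintype.card_pos_iff.1 (by omega)
    exact ⟨(basisOfOrthonormalOfCardEqFinrank o (by simp)).toOrthonormalBasis (by simpa using o),
      fun i => by simp⟩
  have : {t | G t = 0} = Set.univ := IsClopen.eq_univ ⟨isClosed_eq gc continuous_const,
    isOpen_iff_mem_nhds.2 fun t ht => ?_⟩ ⟨0, funext fun p => by
      simp only [hG, z0 _ p.1.2, z0 _ (S2 h2 _), real_inner_smul_left, real_inner_smul_right, xx]
      simp; ring⟩
  · intro t
    have ht : G t = 0 := this.ge (Set.mem_univ t)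
    obtain ⟨b, hb⟩ := ob t ht
    refine ⟨b.repr.symm, fun c => b.repr.injective ?_⟩
    obtain ⟨v, a, e⟩ := mem.1 c.2
    obtain rfl : c = ⟨x v, mem.2 ⟨v, a, rfl⟩⟩ := Subtype.ext e.symm
    ext j
    have := congrFun ht (⟨v, a⟩, j)
    simp only [hG, hb, hZ v a, real_inner_smul_left, real_inner_smul_right, Pi.zero_apply] at this
    rw [b.repr_apply_apply, real_inner_comm]
    rw [b.repr.apply_symm_apply]
    change _ = (v j : ℝ) / 2
    linarith
  obtain ⟨b, hb⟩ := ob t ht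
  have c1 (v) (a : S v) (j) : (fun t => ⟪Z v t, Z (Pi.single j 2) t⟫ - 2 * v j) =O[𝓝 t] fun t => ‖G t‖ :=
    .of_bound 1 (.of_forall fun s => by simpa [hG] using norm_le_pi_norm (G s) (⟨v, a⟩, j))
  let M (t) : (F → ℤ) →+ EuclideanSpace ℝ F := ⟨⟨fun v => ∑ i, ((v i : ℝ) / 2) • Z (Pi.single i 2) t,
    by simp⟩, fun v w => by simp [add_div, add_smul, sum_add_distrib]⟩
  have hR (v) (a : S v) : (fun t => Z v t - M t v) =O[𝓝 t] fun t => ‖G t‖ := by
    have o : (fun s => ∑ j, ⟪Z v s - M s v, b j - (1 / 2 : ℝ) • Z (Pi.single j 2) s⟫ • b j) =o[𝓝 t]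
        fun s => Z v s - M s v := IsLittleO.fun_sum fun j _ => by
      have : (fun s => b j - (1 / 2 : ℝ) • Z (Pi.single j 2) s) =o[𝓝 t] fun _ => (1 : ℝ) :=
        (isLittleO_one_iff ℝ).2 (Continuous.tendsto' (by fun_prop) _ _ (by simp [hb]))
      refine (IsBigO.of_bound 1 (.of_forall fun s => ?_)).trans_isLittleO
        (((isBigO_refl _ _).norm_left.mul_isLittleO this.norm_left).congr_right (fun s => mul_one _)).of_norm_right
      simpa [norm_smul, b.orthonormal.1 j] using abs_real_inner_le_norm _ _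
    refine o.right_isBigO_sub.trans ((IsBigO.fun_sum (s := univ) fun j _ => ((((c1 v a j).sub
      (IsBigO.fun_sum (s := univ) fun i _ => (c1 _ (S2 h2 i) j).const_mul_left ((v i : ℝ) / 2))).const_mul_left
        (1 / 2)).smul (isBigO_const_const (b j) one_ne_zero _)).congr_right fun s => mul_one _).congr_left
          fun s => ?_)
    rw [eq_sub_iff_add_eq, ← sum_add_distrib, ← b.sum_repr' (Z v s - M s v)]
    refine sum_congr rfl fun j _ => ?_
    have : ⟪M s v, Z (Pi.single j 2) s⟫ = 2 * v j + ∑ c, (v c : ℝ) / 2 *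
        (⟪Z (Pi.single c 2) s, Z (Pi.single j 2) s⟫ - 2 * (Pi.single c 2 : F → ℤ) j) := by
      simp [M, sum_inner, real_inner_smul_left, mul_sub, Pi.single_apply]
      ring
    rw [b.sum_repr', ← add_smul, real_inner_comm _ (b j), inner_sub_right, real_inner_smul_right,
      inner_sub_left _ _ (Z (Pi.single j 2) s), this]
    congr 1
    ring
  obtain ⟨c, hc⟩ := IsBigO.bound (show G =O[𝓝 t] fun s => ‖G s‖ ^ 2 from
    isBigO_pi.2 fun p => (core h2 h3 Z M hR hn hc p.1.2 p.2).congr_left fun s => by rw [hG])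
  have l : ∀ᶠ s in 𝓝 t, c * ‖G s‖ < 1 :=
    (Continuous.tendsto' (by fun_prop) t 0 (by simp [show G t = 0 from ht])).eventually_lt_const one_pos
  filter_upwards [hc, l] with s p q
  rw [norm_pow, norm_norm] at p
  exact norm_le_zero_iff.1 (by nlinarith [norm_nonneg (G s)])

omit h2 [AddCommGroup F] in
lemma main {m : ℕ} (e : F ≃ (ZMod 2 × ZMod 2) × (Fin m → ZMod 2)) :
    ∃ C : Finset (EuclideanSpace ℝ F), Jammed C ∧ 8 ^ m ≤ C.card := by
  letI := e.addCommGroup
  have z : ∀ u : ZMod 2, u + u = 0 := by decide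
  have ea (a b : F) : e (a + b) = e a + e b := e.apply_symm_apply _
  have h2 (u : F) : u + u = 0 := e.injective (by
    rw [ea, show e 0 = 0 from e.apply_symm_apply _]; ext <;> exact z _)
  refine ⟨_, jam h2 (by simp [Fintype.card_congr e]; have := Nat.two_pow_pos m; omega), ?_⟩
  refine le_of_eq_of_le ?_ (card_le_card_of_injOn (s := univ) (fun p : Fin 3 → Fin m → ZMod 2 =>
    x (Q (e.symm ((0, 0), p 0)) (e.symm ((0, 1), p 1)) (e.symm ((1, 0), p 2)) 1 1 1 1))
    (fun p _ => (Set.Finite.mem_toFinset _).2 ⟨_, SQ h2 ?_ ?_ ?_ rfl rfl rfl rfl, rfl⟩) fun p _ q _ h => ?_)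
  · simp [← pow_mul, mul_comm m]; simp [pow_mul]
  iterate 3 simp
  have t {a b c a' b' c' y : F} (g : Q a b c 1 1 1 1 = Q a' b' c' 1 1 1 1) (k : y = a ∨ y = b ∨ y = c) :
      e y = e a' ∨ e y = e b' ∨ e y = e c' ∨ e y = e a' + e b' + e c' := by
    have := congrFun g y
    simp only [← ea, e.apply_eq_iff_eq]
    simp only [Q, Pi.add_apply, Pi.single_apply] at this
    by_contra! n
    rw [if_neg n.1, if_neg n.2.1, if_neg n.2.2.1, if_neg n.2.2.2] at this
    rcases k with k | k | k <;> rw [if_pos k] at this <;> split_ifs at this <;> omega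
  have a := t (xi h) (.inl rfl)
  have b := t (xi h) (.inr (.inl rfl))
  have c := t (xi h) (.inr (.inr rfl))
  simp at a b c
  ext1 i; fin_cases i <;> assumption

omit h2 in
theorem result (m : ℕ) : ∃ C : Finset (EuclideanSpace ℝ (Fin (2 ^ (m + 2)))),
    Jammed C ∧ 8 ^ m ≤ C.card :=
  main (Fintype.equivOfCardEq (by simp [pow_add, mul_comm]))

end Pool.Agent.Results.MP_585e0c_gt.Q2
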